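import Pool.Agent.Helper56.NL.Stm2

/-!
Package ROY of the project NL (helper56, MP_60829e_nt).
-/

set_option autoImplicit false

namespace Pool.Agent.Helper31.NL

open Pool.Agent.Helper56.NL MvPolynomial

theorem lin_form {R : Type} [CommRing R] {n : ℕ} (p : MvPolynomial (Fin n) R)
    (hp : p.totalDegree ≤ 1) :
    p = C (coeff 0 p) + ∑ i, C (coeff (Finsupp.single i 1) p) * X i := by
  classical
  ext m
  rw [coeff_add, coeff_C, coeff_sum]
  have h1 : ∀ i : Fin n, coeff m (C (coeff (Finsupp.single i 1) p) * X i) =
      if Finsupp.single i 1 = m then coeff m p else 0 := by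
    intro i
    rw [coeff_C_mul, coeff_X]
    split_ifs with h
    · rw [h, mul_one]
    · rw [mul_zero]
  rw [Finset.sum_congr rfl fun i _ => h1 i]
  by_cases h0 : m = 0
  · subst h0
    rw [if_pos rfl, Finset.sum_eq_zero, add_zero]
    intro i _
    rw [if_neg]
    intro h
    have := congrArg (fun d : Fin n →₀ ℕ => d i) h
    simp at this
  · rw [if_neg (Ne.symm h0), zero_add]
    by_cases h2 : ∃ i, m = Finsupp.single i 1
    · obtain ⟨i, rfl⟩ := h2
      rw [Finset.sum_eq_single i]
      · rw [if_pos rfl]
      · intro j _ hj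
        rw [if_neg]
        intro h
        exact hj (Finsupp.single_left_injective one_ne_zero h)
      · intro h
        exact absurd (Finset.mem_univ _) h
    · rw [Finset.sum_eq_zero]
      · apply coeff_eq_zero_of_totalDegree_lt
        refine lt_of_le_of_lt hp ?_
        by_contra hc
        rw [not_lt] at hc
        have h3 : ∑ i ∈ m.support, m i ≠ 0 := by
          intro h4
          apply h0
          ext i
          by_contra hi
          have h5 := (Finset.sum_eq_zero_iff.1 h4) i (Finsupp.mem_support_iff.2 hi)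
          exact hi h5
        have h4 : m.sum (fun _ n => n) = 1 := by
          change ∑ i ∈ m.support, m i = 1
          omega
        exact h2 ((Finsupp.sum_eq_one_iff m).1 h4)
      · intro i _
        rw [if_neg]
        intro h
        exact h2 ⟨i, h.symm⟩

theorem det_of_rank {N : ℕ} {A : Matrix (Fin N) (Fin N) ℂ} (h : N ≤ A.rank) : A.det ≠ 0 := by
  intro h0
  obtain ⟨v, hv, hv0⟩ := Matrix.exists_mulVec_eq_zero_iff.2 h0
  have h1 := LinearMap.finrank_range_add_finrank_ker A.mulVecLin
  rw [Module.finrank_fin_fun] at h1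
  have h2 : Module.finrank ℂ (LinearMap.ker A.mulVecLin) = 0 := by
    have : A.rank = Module.finrank ℂ (LinearMap.range A.mulVecLin) := rfl
    omega
  have h3 : LinearMap.ker A.mulVecLin = ⊥ := Submodule.finrank_eq_zero.1 h2
  apply hv
  have h4 : v ∈ LinearMap.ker A.mulVecLin := by
    rw [LinearMap.mem_ker]
    exact hv0
  rw [h3] at h4
  exact (Submodule.mem_bot ℂ).1 h4

/-- Package ROY. -/
theorem roy (hDET : S_DET) : S_ROY := by
  classical
  intro F hB hS D n u hu hlin f hfa hf0 _ hev
  let k := algebraicClosure ℚ ℂ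
  have hkalg : ∀ c : k, IsAlgebraic ℚ (c : ℂ) := fun c => mem_algebraicClosure_iff.1 c.2
  obtain ⟨f0, hf0'⟩ : ∃ f0 : MvPolynomial (Fin n) k, MvPolynomial.map (algebraMap k ℂ) f0 = f := by
    have : f ∈ Set.range (MvPolynomial.map (σ := Fin n) (algebraMap k ℂ)) := by
      rw [mem_range_map_iff_coeffs_subset]
      intro x hx
      rw [Finset.mem_coe, MvPolynomial.mem_coeffs_iff] at hx
      obtain ⟨α, -, rfl⟩ := hx
      exact ⟨⟨coeff α f, mem_algebraicClosure_iff.2 (hfa α)⟩, rfl⟩
    exact this
  have hne : f0 ≠ 0 := by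
    rintro rfl
    apply hf0
    rw [← hf0', map_zero]
  obtain ⟨N, A, hA, hdet⟩ := hDET k n f0
  -- a point with algebraic coordinates
  obtain ⟨y, hy⟩ : ∃ y : Fin n → k, eval y f0 ≠ 0 := by
    by_contra hc
    push Not at hc
    apply hne
    refine MvPolynomial.funext fun x => ?_
    rw [hc x, map_zero]
  -- Baker
  have hli : LinearIndependent k (fun o : Option (Fin n) => o.elim (1 : ℂ) u) := by
    rw [Fintype.linearIndependent_iff]
    intro g hg
    rw [Fintype.sum_option] at hg
    by_contra hc
    push Not at hc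
    let h : MvPolynomial (Fin n) ℂ := C (g none : ℂ) + ∑ i, C (g (some i) : ℂ) * X i
    have hcoef0 : coeff 0 h = g none := by
      simp only [h, coeff_add, coeff_C, coeff_sum, if_true]
      rw [Finset.sum_eq_zero, add_zero]
      intro i _
      rw [coeff_C_mul, coeff_X, if_neg, mul_zero]
      intro h'
      have := congrArg (fun d : Fin n →₀ ℕ => d i) h'
      simp at this
    have hcoef1 : ∀ i, coeff (Finsupp.single i 1) h = g (some i) := by
      intro i
      simp only [h, coeff_add, coeff_C, coeff_sum]
      rw [if_neg, zero_add, Finset.sum_eq_single i]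
      · rw [coeff_C_mul, coeff_X, if_pos rfl, mul_one]
      · intro j _ hj
        rw [coeff_C_mul, coeff_X, if_neg, mul_zero]
        intro h'
        exact hj (Finsupp.single_left_injective one_ne_zero h')
      · intro h'
        exact absurd (Finset.mem_univ _) h'
      · intro h'
        have := congrArg (fun d : Fin n →₀ ℕ => d i) h'
        simp at this
    have hdeg : h.totalDegree ≤ 1 := by
      refine (totalDegree_add _ _).trans (max_le ?_ ?_)
      · rw [totalDegree_C]; exact zero_le
      · refine totalDegree_finsetSum_le fun i _ => ?_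
        refine (totalDegree_mul _ _).trans ?_
        rw [totalDegree_C, totalDegree_X]
    have hmap : ∃ h0 : MvPolynomial (Fin n) k, MvPolynomial.map (algebraMap k ℂ) h0 = h :=
      ⟨C (g none) + ∑ i, C (g (some i)) * X i, by
        simp only [map_add, map_sum, map_mul, map_C, map_X, h]
        rfl⟩
    obtain ⟨h0, hh0⟩ := hmap
    refine hB n u hu hlin h (fun m => ?_) ?_ hdeg ?_
    · rw [← hh0, coeff_map]
      exact hkalg _
    · intro hz
      obtain ⟨o, ho⟩ := hc
      apply ho
      cases o with
      | none =>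
        rw [hz, coeff_zero] at hcoef0
        exact Subtype.ext hcoef0.symm
      | some i =>
        have := hcoef1 i
        rw [hz, coeff_zero] at this
        exact Subtype.ext this.symm
    · rw [← hg]
      simp only [h, map_add, map_sum, map_mul, eval_C, eval_X, Option.elim, Algebra.smul_def]
      rw [mul_one]
      rfl
  -- the linear map
  let v : Option (Fin n) → ℂ := fun o => o.elim (1 : ℂ) u
  let w : Option (Fin n) → k := fun o => o.elim (1 : k) y
  obtain ⟨g, hg⟩ := LinearMap.exists_extend
    ((Finsupp.linearCombination k w).comp hli.repr)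
  have hgv : ∀ o, g (v o) = w o := by
    intro o
    have h1 := LinearMap.congr_fun hg ⟨v o, Submodule.subset_span ⟨o, rfl⟩⟩
    have h2 : hli.repr ⟨v o, Submodule.subset_span ⟨o, rfl⟩⟩ = Finsupp.single o 1 :=
      hli.repr_eq_single o _ rfl
    rw [LinearMap.comp_apply, LinearMap.comp_apply] at h1
    refine h1.trans ?_
    change Finsupp.linearCombination k w (hli.repr ⟨v o, _⟩) = _
    rw [h2, Finsupp.linearCombination_single, one_smul]
  let φ : ℂ → ℂ := fun z => ((g z : k) : ℂ)
  have hφ : AlgLinear φ := by
    refine ⟨fun x z => ?_, fun c x hc => ?_, fun x => hkalg _⟩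
    · change ((g (x + z) : k) : ℂ) = _
      rw [map_add]; rfl
    · have h1 : c * x = (⟨c, mem_algebraicClosure_iff.2 hc⟩ : k) • x := rfl
      change ((g (c * x) : k) : ℂ) = _
      rw [h1, map_smul]
      rfl
  -- the matrix
  let ev : MvPolynomial (Fin n) k →ₐ[k] ℂ := aeval u
  have hevp : ∀ p : MvPolynomial (Fin n) k, p.totalDegree ≤ 1 →
      ev p = ((coeff 0 p : k) : ℂ) + ∑ i, ((coeff (Finsupp.single i 1) p : k) : ℂ) * u i := by
    intro p hp
    conv_lhs => rw [lin_form p hp]
    simp only [map_add, map_sum, map_mul, ev, aeval_X, algHom_C]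
    rfl
  have hev1 : ev f0 = 0 := by
    rw [← hev, ← hf0', MvPolynomial.eval_map]
    rfl
  let B : Matrix (Fin N) (Fin N) ℂ := A.map ev
  have hlog : ∀ i j, LogForm F (B i j) := fun i j =>
    ⟨n, u, _, _, hu, hkalg _, fun _ => hkalg _, hevp (A i j) (hA i j)⟩
  have hBφ : B.map φ = (A.map (eval y)).map (algebraMap k ℂ) := by
    ext i j
    rw [Matrix.map_apply, Matrix.map_apply, Matrix.map_apply]
    change ((g (ev (A i j)) : k) : ℂ) = ((eval y (A i j) : k) : ℂ)
    congr 1
    rw [hevp (A i j) (hA i j)]
    conv_rhs => rw [lin_form (A i j) (hA i j)]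
    have h1 : ((coeff 0 (A i j) : k) : ℂ) + ∑ l, ((coeff (Finsupp.single l 1) (A i j) : k) : ℂ) *
        u l = coeff 0 (A i j) • v none + ∑ l, coeff (Finsupp.single l 1) (A i j) • v (some l) := by
      simp only [Algebra.smul_def, v, Option.elim, mul_one]
      rfl
    rw [h1, map_add, map_sum, map_smul, hgv]
    simp only [map_smul, hgv, w, Option.elim, smul_eq_mul, mul_one, map_add, map_sum, map_mul,
      eval_C, eval_X]
  have hrk : (B.map φ).rank = N := by
    rw [hBφ, Matrix.rank_of_det_ne_zero, Fintype.card_fin]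
    have h1 : ((A.map (eval y)).map (algebraMap k ℂ)).det = algebraMap k ℂ (A.map (eval y)).det :=
      (RingHom.map_det (algebraMap k ℂ) _).symm
    have h2 : (A.map (eval y)).det = eval y A.det := (RingHom.map_det (eval y) _).symm
    rw [h1, h2, hdet]
    exact fun h => hy ((algebraMap k ℂ).injective (by rw [h, map_zero]))
  have hmain := hS N N B φ hlog hφ
  rw [hrk, one_mul, Nat.cast_le] at hmain
  apply det_of_rank hmain
  have h1 : B.det = ev A.det := (RingHom.map_det (ev : MvPolynomial (Fin n) k →+* ℂ) _).symm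
  rw [h1, hdet, hev1]

end Pool.Agent.Helper31.NL
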